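import Pool.Agent.Helper52.MA.Sub

/-!
# MA-2: the countable chain condition of one more step
-/

set_option autoImplicit false
set_option linter.unusedSectionVars false

namespace Pool.Agent.Helper52.MA

open Set Pool.Agent.Helper33.HM

universe u

variable {I : Type u} [LinearOrder I] [WellFoundedLT I] {Ω : Type} [LinearOrder Ω]
  {code : I → Ω → Ω → Set (Cond I Ω)}

theorem twoStep_mem {j : I} {U : RO (PC code)} (hU : U ∈ S j) {p q : PC code}
    (h : p.res j = q.res j) : p ∈ U ↔ q ∈ U := by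
  rw [hU p, hU q, h]

theorem twoStep_put {i : I} {t p : PC code} {x z : Ω} (hp : ∀ j, p.c.f j ≠ none → j ≤ i)
    (hx : p.c.f i = some x) (ht : t ≤ p.res i) (hR : t ∈ (Rv i z x : RO (PC code))) :
    t.put i z ≤ p := by
  rw [PC.le_iff]
  intro j w hw
  have hji : j ≤ i := hp j (by rw [hw]; simp)
  rcases hji.lt_or_eq with h | rfl
  · obtain ⟨y, hy, hy'⟩ := PC.le_iff.1 ht j w (by
      change (p.c.res i).f j = some w
      rw [Cond.res_f_lt _ h, hw])
    refine ⟨y, ?_, ?_⟩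
    · change (Cond.put t.c i z).f j = some y
      rw [Cond.put_f, if_neg h.ne, hy]
    · exact (twoStep_mem (Rv_mem j y w) (Cond.put_res t.c i z h.le)).2 hy'
  · have hxw : x = w := by rw [hx] at hw; exact Option.some.inj hw
    subst hxw
    refine ⟨z, ?_, ?_⟩
    · change (Cond.put t.c j z).f j = some z
      rw [Cond.put_f, if_pos rfl]
    · exact (twoStep_mem (Rv_mem j z x) (Cond.put_res t.c j z le_rfl)).2 hR

/-- MA-2 (file TwoStep.lean). -/
theorem ccc_succ (hb : ∀ s : Set Ω, s.Countable → ∃ b, ∀ x ∈ s, x < b)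
    (hI : ∀ b : Ω, (Iio b).Countable) (i : I)
    (h : ∀ A : Set (PC code), (∀ p ∈ A, p.lt i) →
      (∀ p ∈ A, ∀ q ∈ A, p ≠ q → ¬ ∃ r : PC code, r ≤ p ∧ r ≤ q) → A.Countable)
    (A : Set (PC code)) (hA : ∀ p ∈ A, ∀ j, p.c.f j ≠ none → j ≤ i)
    (hA' : ∀ p ∈ A, ∀ q ∈ A, p ≠ q → ¬ ∃ r : PC code, r ≤ p ∧ r ≤ q) : A.Countable := by
  classical
  haveI : Nonempty (PC code) := ⟨⊤⟩
  -- conditions without a value at `i`
  have h0 : {p ∈ A | p.c.f i = none}.Countable := by
    apply h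
    · rintro p ⟨hp, hpi⟩ j hj
      refine (hA p hp j hj).lt_of_ne ?_
      rintro rfl
      exact hj hpi
    · rintro p ⟨hp, _⟩ q ⟨hq, _⟩
      exact hA' p hp q hq
  -- conditions with the value `x` at `i`
  have h1 : ∀ x, {p ∈ A | p.c.f i = some x}.Countable := by
    intro x
    have hglue : ∀ p ∈ A, p.c.f i = some x → ∀ q ∈ A, q.c.f i = some x →
        ∀ r : PC code, PC.glue i r p = PC.glue i r q := by
      intro p hp hpx q hq hqx r
      apply Cond.ext
      funext j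
      change (Cond.glue i r.c p.c).f j = (Cond.glue i r.c q.c).f j
      rw [Cond.glue_f, Cond.glue_f]
      split
      · rfl
      · next hj =>
        rcases (not_lt.1 hj).eq_or_lt with h2 | h2
        · subst h2
          rw [hpx, hqx]
        · have e1 : p.c.f j = none := by
            by_contra h3
            exact absurd (hA p hp j h3) (not_le.2 h2)
          have e2 : q.c.f j = none := by
            by_contra h3
            exact absurd (hA q hq j h3) (not_le.2 h2)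
          rw [e1, e2]
    have hself : ∀ p : PC code, PC.glue i (p.res i) p = p := by
      intro p
      apply Cond.ext
      funext j
      change (Cond.glue i (p.c.res i) p.c).f j = p.c.f j
      rw [Cond.glue_f]
      split
      · next hj => exact Cond.res_f_lt _ hj
      · rfl
    refine Set.countable_of_injective_of_countable_image (f := fun p : PC code => p.res i) ?_ ?_
    · rintro p ⟨hp, hpx⟩ q ⟨hq, hqx⟩ hpq
      have hpq' : p.res i = q.res i := hpq
      have := hglue p hp hpx q hq hqx (p.res i)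
      rw [hself] at this
      rw [this, hpq', hself]
    · apply h
      · rintro _ ⟨p, _, rfl⟩
        exact PC.res_lt _ _
      · rintro _ ⟨p, ⟨hp, hpx⟩, rfl⟩ _ ⟨q, ⟨hq, hqx⟩, rfl⟩ hne ⟨r, hr1, hr2⟩
        have k1 : r.res i ≤ p.res i := PC.res_le_of_lt hr1 (PC.res_lt _ _)
        have k2 : r.res i ≤ q.res i := PC.res_le_of_lt hr2 (PC.res_lt _ _)
        refine hA' p hp q hq (fun e => hne (by rw [e])) ⟨PC.glue i (r.res i) p,
          PC.glue_le_right k1, ?_⟩
        rw [hglue p hp hpx q hq hqx]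
        exact PC.glue_le_right k2
  -- the set of the values
  set X : Set Ω := {x | ∃ p ∈ A, p.c.f i = some x} with hX
  have hXP : ∀ x ∈ X, ∃ p, p ∈ A ∧ p.c.f i = some x := fun x hx => hx
  choose! P hPA hPf using hXP
  have hPne : ∀ x ∈ X, ∀ y ∈ X, x ≠ y → P x ≠ P y := by
    intro x hx y hy hxy he
    apply hxy
    have := hPf x hx
    rw [he, hPf y hy] at this
    exact (Option.some.inj this).symm
  have hcS : ((okV i : RO (PC code)))ᶜ ∈ S i := (S_isSub i).compl_mem _ (okV_mem i)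
  set X1 : Set Ω := {x | x ∈ X ∧ ∃ s : PC code, s.lt i ∧ s ≤ (P x).res i ∧
    s ∈ ((okV i : RO (PC code)))ᶜ} with hX1
  have hX1c : X1.Countable := by
    have hs : ∀ x ∈ X1, ∃ s : PC code, s.lt i ∧ s ≤ (P x).res i ∧
      s ∈ ((okV i : RO (PC code)))ᶜ := fun x hx => hx.2
    choose! s hs1 hs2 hs3 using hs
    have key : ∀ x ∈ X1, ∀ y ∈ X1, x ≠ y → ¬ ∃ t, t ≤ s x ∧ t ≤ s y := by
      rintro x hx y hy hxy ⟨t, ht1, ht2⟩
      have k0 : t.res i ∈ ((okV i : RO (PC code)))ᶜ :=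
        (mem_res_iff hcS).2 (RO.mem_lower ht1 (hs3 x hx))
      have k1 : t.res i ≤ (P x).res i := PC.res_le_of_lt (ht1.trans (hs2 x hx)) (PC.res_lt _ _)
      have k2 : t.res i ≤ (P y).res i := PC.res_le_of_lt (ht2.trans (hs2 y hy)) (PC.res_lt _ _)
      refine hA' _ (hPA x hx.1) _ (hPA y hy.1) (hPne x hx.1 y hy.1 hxy)
        ⟨(t.res i).put i x, ?_, ?_⟩
      · refine twoStep_put (hA _ (hPA x hx.1)) (hPf x hx.1) k1 ?_
        rw [Rv_refl]
        exact RO.mem_top _
      · refine twoStep_put (hA _ (hPA y hy.1)) (hPf y hy.1) k2 ?_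
        rw [Rv, RO.mem_himp]
        intro q hq hok
        exact absurd hok (RO.mem_compl.1 k0 q hq)
    refine Set.countable_of_injective_of_countable_image (f := s) ?_ ?_
    · intro x hx y hy hxy
      by_contra hne
      exact key x hx y hy hne ⟨s x, le_rfl, le_of_eq hxy⟩
    · apply h
      · rintro _ ⟨x, hx, rfl⟩
        exact hs1 x hx
      · rintro _ ⟨x, hx, rfl⟩ _ ⟨y, hy, rfl⟩ hne
        exact key x hx y hy fun e => hne (by rw [e])
  -- the remaining values
  have hX2 : ∀ x ∈ X, x ∉ X1 → (P x).res i ∈ (okV i : RO (PC code)) := by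
    intro x hx hx1
    by_contra hno
    apply hx1
    rw [← compl_compl (okV i : RO (PC code)), RO.mem_compl] at hno
    push_neg at hno
    obtain ⟨q, hq, hq'⟩ := hno
    exact ⟨hx, q.res i, PC.res_lt _ _, PC.res_le_of_lt hq (PC.res_lt _ _),
      (mem_res_iff hcS).2 hq'⟩
  let Ab : Ω → RO (PC code) := fun x => RO.gen {a | ∃ p ∈ A, p.c.f i = some x ∧ a = p.res i}
  have hAb : ∀ x, Ab x ∈ S i := by
    intro x
    apply gen_mem_S
    rintro a ⟨p, _, _, rfl⟩
    exact PC.res_lt _ _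
  have hanti : (okV i : RO (PC code)) ≤ antiV (Cv i) Ab := by
    intro t ht
    rw [mem_antiV]
    intro x y hxy r hr k1 k2 z s hs k3 k4
    obtain ⟨t1, ht1, a, ⟨p, hp, hpx, rfl⟩, hta⟩ := RO.mem_gen.1 (RO.mem_lower hs k1) s le_rfl
    obtain ⟨t2, ht2, b, ⟨q, hq, hqy, rfl⟩, htb⟩ :=
      RO.mem_gen.1 (RO.mem_lower (ht1.trans hs) k2) t1 le_rfl
    have hle : ∀ w, (Cv i z w : RO (PC code)) ≤ Rv i z w := fun w => le_himp
    refine hA' p hp q hq ?_ ⟨(t2.res i).put i z, ?_, ?_⟩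
    · rintro rfl
      rw [hpx] at hqy
      exact hxy (Option.some.inj hqy)
    · refine twoStep_put (hA p hp) hpx (PC.res_le_of_lt (ht2.trans hta) (PC.res_lt _ _)) ?_
      exact hle x _ ((mem_res_iff (Cv_mem i z x)).2 (RO.mem_lower (ht2.trans ht1) k3))
    · refine twoStep_put (hA q hq) hqy (PC.res_le_of_lt htb (PC.res_lt _ _)) ?_
      exact hle y _ ((mem_res_iff (Cv_mem i z y)).2 (RO.mem_lower (ht2.trans ht1) k4))
  have hbdd : (okV i : RO (PC code)) ≤ bddV Ab := by
    have e1 : (okV i : RO (PC code)) ≤ antiV (Cv i) Ab ⇨ bddV Ab :=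
      inf_le_right.trans ((iInf_le _ Ab).trans (iInf_le _ hAb))
    exact (le_inf e1 hanti).trans himp_inf_le
  -- a maximal antichain of conditions which decide a bound
  let E : Set (PC code) := {r | r.lt i ∧ ∃ b, ∀ y, b ≤ y → r ∈ (Ab y)ᶜ}
  obtain ⟨E', hE'⟩ := zorn_subset {F : Set (PC code) | F ⊆ E ∧
      ∀ p ∈ F, ∀ q ∈ F, p ≠ q → ¬ ∃ r : PC code, r ≤ p ∧ r ≤ q} (by
    intro c hc hch
    refine ⟨⋃₀ c, ⟨?_, ?_⟩, fun s hs => subset_sUnion_of_mem hs⟩
    · exact sUnion_subset fun s hs => (hc hs).1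
    · rintro p ⟨s, hs, hp⟩ q ⟨s', hs', hq⟩
      rcases hch.total hs hs' with hss | hss
      · exact (hc hs').2 p (hss hp) q hq
      · exact (hc hs).2 p hp q (hss hq))
  have hE'c : E'.Countable := h E' (fun p hp => (hE'.prop.1 hp).1) hE'.prop.2
  have hbe : ∀ e ∈ E', ∃ b, ∀ y, b ≤ y → e ∈ (Ab y)ᶜ := fun e he => (hE'.prop.1 he).2
  have hΩ : X.Nonempty → Nonempty Ω := fun ⟨x, _⟩ => ⟨x⟩
  have hX2c : (X \ X1).Countable := by
    rcases (X \ X1).eq_empty_or_nonempty with he | ⟨x0, hx0⟩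
    · rw [he]; exact countable_empty
    haveI : Nonempty Ω := ⟨x0⟩
    choose! be hbe' using hbe
    obtain ⟨b, hbb⟩ := hb (be '' E') (hE'c.image _)
    refine (hI b).mono ?_
    rintro x ⟨hx, hx1⟩
    have k1 : (P x).res i ∈ bddV Ab := hbdd _ (hX2 x hx hx1)
    rw [mem_bddV] at k1
    obtain ⟨r, hr, b', hb'⟩ := k1 _ le_rfl
    have k2 : r.res i ≤ (P x).res i := PC.res_le_of_lt hr (PC.res_lt _ _)
    have k3 : r.res i ∈ E := by
      refine ⟨PC.res_lt _ _, b', fun y hy => ?_⟩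
      have : (Ab y)ᶜ ∈ S i := (S_isSub i).compl_mem _ (hAb y)
      exact (mem_res_iff this).2 (RO.mem_compl.2 (hb' y hy))
    have k4 : ∃ e ∈ E', ∃ t : PC code, t ≤ r.res i ∧ t ≤ e := by
      by_contra hno
      push_neg at hno
      have hmem : r.res i ∈ E' := by
        have hins : insert (r.res i) E' ∈ {F : Set (PC code) | F ⊆ E ∧
            ∀ p ∈ F, ∀ q ∈ F, p ≠ q → ¬ ∃ r : PC code, r ≤ p ∧ r ≤ q} := by
          refine ⟨insert_subset k3 hE'.prop.1, ?_⟩
          rintro p (rfl | hp) q (rfl | hq) hpq ⟨t, ht1, ht2⟩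
          · exact hpq rfl
          · exact hno q hq t ht1 ht2
          · exact hno p hp t ht2 ht1
          · exact hE'.prop.2 p hp q hq hpq ⟨t, ht1, ht2⟩
        exact hE'.le_of_ge hins (subset_insert _ _) (mem_insert _ _)
      exact hno _ hmem _ le_rfl le_rfl
    obtain ⟨e, he, t, ht1, ht2⟩ := k4
    have k5 : t ∈ Ab x := by
      refine RO.mem_gen.2 fun q hq => ⟨q, le_rfl, (P x).res i, ⟨P x, hPA x hx, hPf x hx, rfl⟩,
        hq.trans (ht1.trans k2)⟩
    have k6 : x < be e := by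
      by_contra hno
      exact RO.mem_compl.1 (hbe' e he x (not_lt.1 hno)) t ht2 k5
    exact k6.trans (hbb _ ⟨e, he, rfl⟩)
  have hXc : X.Countable := (hX1c.union hX2c).mono (by
    intro x hx
    by_cases hx1 : x ∈ X1
    · exact Or.inl hx1
    · exact Or.inr ⟨hx, hx1⟩)
  refine (h0.union (hXc.biUnion fun x _ => h1 x)).mono ?_
  intro p hp
  cases hpf : p.c.f i with
  | none => exact Or.inl ⟨hp, hpf⟩
  | some x => exact Or.inr (mem_biUnion (show x ∈ X from ⟨p, hp, hpf⟩) ⟨hp, hpf⟩)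

end Pool.Agent.Helper52.MA
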